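import Pool.Agent.Helper12.TS.St
import Pool.Agent.Helper51.AJ.Basic

/-!
# Project TS, module M3A: three components, two cover
-/

set_option autoImplicit false

namespace Pool.Agent.Helper99.TS

open Pool.Agent.Helper12.TS
open Pool.Agent.Helper51.AJ (IsMinor Planar Apex ExMinor Con Tch)
open Pool.Agent.Helper12.NK (rst Kc add)

theorem hM3A : StQUO → StCMP → StLNK → StM3A := by
  intro _hQUO hCMP hLNK V _ G S Ca Cb Cc hM hK hS hCa hCb hCc hab hbc hac hia hib hall
  obtain ⟨s, t, u, hst, hsu, htu, rfl⟩ := Set.ncard_eq_three.1 hS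
  classical
  obtain ⟨-, hc2, -, hc4, -⟩ := hCMP V G {s, t, u}
  have htch := hc4 hK hS
  have dab := hc2 Ca Cb hCa hCb hab
  have dbc := hc2 Cb Cc hCb hCc hbc
  have dac := hc2 Ca Cc hCa hCc hac
  have hsS : s ∈ ({s, t, u} : Set V) := by simp
  have htS : t ∈ ({s, t, u} : Set V) := by simp
  have huS : u ∈ ({s, t, u} : Set V) := by simp
  have nin : ∀ C : Set V, Cmp G {s, t, u} C → ∀ x ∈ ({s, t, u} : Set V), x ∉ C :=
    fun C hC x hx hxC => Set.disjoint_left.1 hC.1 hxC hx
  set ρ : V → V := fun x => if x ∈ Cc then s else x with hρ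
  have hρc : ∀ x ∈ Cc, ρ x = s := fun x hx => by simp [hρ, hx]
  have hρn : ∀ x, x ∉ Cc → ρ x = x := fun x hx => by simp [hρ, hx]
  have hfib : ∀ x ∈ (Set.univ : Set V), Con G {z | z ∈ (Set.univ : Set V) ∧ ρ z = ρ x} := by
    intro x _
    by_cases hx : ρ x = s
    · have e : {z | z ∈ (Set.univ : Set V) ∧ ρ z = ρ x} = {s} ∪ Cc := by
        ext z
        simp only [Set.mem_univ, true_and, Set.mem_ofPred_eq, Set.mem_union, Set.mem_singleton_iff]
        rw [hx]
        by_cases hz : z ∈ Cc
        · simp [hρc z hz, hz]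
        · simp [hρn z hz, hz]
      rw [e]
      exact Pool.Agent.Helper51.AJ.con_union (Pool.Agent.Helper51.AJ.con_singleton G s) hCc.2.1
        (htch Cc hCc s hsS)
    · have hxC : x ∉ Cc := fun h => hx (hρc x h)
      have e : {z | z ∈ (Set.univ : Set V) ∧ ρ z = ρ x} = {x} := by
        ext z
        simp only [Set.mem_univ, true_and, Set.mem_ofPred_eq, Set.mem_singleton_iff]
        rw [hρn x hxC] at hx ⊢
        by_cases hz : z ∈ Cc
        · rw [hρc z hz]
          constructor
          · intro h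
            exact absurd h.symm hx
          · intro h
            exact absurd (h ▸ hz) hxC
        · rw [hρn z hz]
      rw [e]
      exact Pool.Agent.Helper51.AJ.con_singleton G x
  obtain ⟨s', hs', c, hc, hsc⟩ := htch Cc hCc s hsS
  rw [Set.mem_singleton_iff] at hs'
  subst hs'
  obtain ⟨v, hv⟩ := hM.2 G Set.univ ρ le_rfl hfib ⟨s', c, hsc, fun h => h.2.2.2 (by
    rw [hρc c hc, hρn s' (nin Cc hCc s' hsS)])⟩
  set K := rst (quo G Set.univ ρ) {v}ᶜ with hKdef
  -- edges of `K`
  have hKG : ∀ x y, x ∉ Cc → y ∉ Cc → x ≠ v → y ≠ v → G.Adj x y → K.Adj x y := by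
    intro x y hx hy hxv hyv hxy
    exact ⟨⟨hxy.ne, x, trivial, y, trivial, hρn x hx, hρn y hy, hxy⟩, hxv, hyv⟩
  have hKs : ∀ x ∈ ({s', t, u} : Set V), x ≠ s' → x ≠ v → s' ≠ v → K.Adj x s' := by
    intro x hx hxs hxv hsv
    obtain ⟨x', hx', d, hd, hxd⟩ := htch Cc hCc x hx
    rw [Set.mem_singleton_iff] at hx'
    subst hx'
    exact ⟨⟨hxs, x', trivial, d, trivial, hρn x' (nin Cc hCc x' hx), hρc d hd, hxd⟩, hxv, hsv⟩
  have key : ∀ C, Cmp G {s', t, u} C → Disjoint C Cc → v ∉ C → ∀ i a b : V,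
      ({s', t, u} : Set V) \ {i} = {a, b} → v ≠ a → v ≠ b → Stg G {s', t, u} C i → ∀ Q : Set V,
      Disjoint Q (C ∪ {a, b}) → Lk K Q a b → False := by
    intro C hC hCC hvC i a b hab' hva hvb hstg Q hQ hlk
    have haS : a ∈ ({s', t, u} : Set V) := by
      have : a ∈ ({s', t, u} : Set V) \ {i} := by rw [hab']; simp
      exact this.1
    have hbS : b ∈ ({s', t, u} : Set V) := by
      have : b ∈ ({s', t, u} : Set V) \ {i} := by rw [hab']; simp
      exact this.1
    have hnotCc : ∀ x ∈ C ∪ {a, b}, x ∉ Cc ∧ x ≠ v := by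
      intro x hx
      rcases hx with hx | hx | hx
      · exact ⟨Set.disjoint_left.1 hCC hx, fun h => hvC (h ▸ hx)⟩
      · subst hx
        exact ⟨nin Cc hCc x haS, hva.symm⟩
      · rw [Set.mem_singleton_iff] at hx
        subst hx
        exact ⟨nin Cc hCc x hbS, hvb.symm⟩
    have hle : rst G (C ∪ {a, b}) ≤ K := by
      intro x y hxy
      exact hKG x y (hnotCc x hxy.2.1).1 (hnotCc y hxy.2.2).1 (hnotCc x hxy.2.1).2
        (hnotCc y hxy.2.2).2 hxy.1
    have hpl := hLNK V G K C Q a b hle hQ hlk hv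
    apply hstg
    rw [hab']
    exact hpl
  have e1 : ({s', t, u} : Set V) \ {s'} = {t, u} := by
    ext x
    simp only [Set.mem_sdiff, Set.mem_insert_iff, Set.mem_singleton_iff]
    constructor
    · rintro ⟨h1 | h1 | h1, h2⟩
      · exact absurd h1 h2
      · exact Or.inl h1
      · exact Or.inr h1
    · rintro (h1 | h1)
      · exact ⟨Or.inr (Or.inl h1), fun h => hst (h.symm.trans h1)⟩
      · exact ⟨Or.inr (Or.inr h1), fun h => hsu (h.symm.trans h1)⟩
  have e2 : ({s', t, u} : Set V) \ {t} = {u, s'} := by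
    ext x
    simp only [Set.mem_sdiff, Set.mem_insert_iff, Set.mem_singleton_iff]
    constructor
    · rintro ⟨h1 | h1 | h1, h2⟩
      · exact Or.inr h1
      · exact absurd h1 h2
      · exact Or.inl h1
    · rintro (h1 | h1)
      · exact ⟨Or.inr (Or.inr h1), fun h => htu (h.symm.trans h1)⟩
      · exact ⟨Or.inl h1, fun h => hst (h1.symm.trans h)⟩
  have e3 : ({s', t, u} : Set V) \ {u} = {t, s'} := by
    ext x
    simp only [Set.mem_sdiff, Set.mem_insert_iff, Set.mem_singleton_iff]
    constructor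
    · rintro ⟨h1 | h1 | h1, h2⟩
      · exact Or.inr h1
      · exact Or.inl h1
      · exact absurd h1 h2
    · rintro (h1 | h1)
      · exact ⟨Or.inr (Or.inl h1), fun h => htu (h1.symm.trans h)⟩
      · exact ⟨Or.inl h1, fun h => hsu (h1.symm.trans h)⟩
  by_cases hvS : v ∈ ({s', t, u} : Set V)
  · have hvn : ∀ C, Cmp G {s', t, u} C → v ∉ C := fun C hC => nin C hC v hvS
    have hlink : ∀ C, Cmp G {s', t, u} C → Disjoint C Cc → v = s' → Lk K C t u := by
      intro C hC hCC hvs
      refine Or.inr ⟨C, le_rfl, ?_, ?_, ?_⟩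
      · have hcon : (G.induce C).Connected := hC.2.1
        refine hcon.mono ?_
        intro x y hxy
        have hxy' : G.Adj x.1 y.1 := hxy
        exact hKG x.1 y.1 (Set.disjoint_left.1 hCC x.2) (Set.disjoint_left.1 hCC y.2)
          (fun h => hvn C hC (h ▸ x.2)) (fun h => hvn C hC (h ▸ y.2)) hxy'
      · obtain ⟨x, hx, d, hd, hxd⟩ := htch C hC t htS
        rw [Set.mem_singleton_iff] at hx
        subst hx
        exact ⟨x, rfl, d, hd, hKG x d (nin Cc hCc x htS) (Set.disjoint_left.1 hCC hd)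
          (fun h => hst (h.trans hvs).symm) (fun h => hvn C hC (h ▸ hd)) hxd⟩
      · obtain ⟨x, hx, d, hd, hxd⟩ := htch C hC u huS
        rw [Set.mem_singleton_iff] at hx
        subst hx
        exact ⟨x, rfl, d, hd, hKG x d (nin Cc hCc x huS) (Set.disjoint_left.1 hCC hd)
          (fun h => hsu (h.trans hvs).symm) (fun h => hvn C hC (h ▸ hd)) hxd⟩
    have hdisj : ∀ C C', Cmp G {s', t, u} C → Disjoint C C' → Cmp G {s', t, u} C' →
        Disjoint C' (C ∪ {t, u}) := by
      intro C C' hC hCC' hC'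
      rw [Set.disjoint_left]
      rintro x hx (h | h | h)
      · exact Set.disjoint_left.1 hCC' h hx
      · exact nin C' hC' t htS (h ▸ hx)
      · rw [Set.mem_singleton_iff] at h
        exact nin C' hC' u huS (h ▸ hx)
    rcases hvS with hvs | hvt | hvu
    · -- `v = s`
      have hvt : v ≠ t := fun h => hst (hvs.symm.trans h)
      have hvu : v ≠ u := fun h => hsu (hvs.symm.trans h)
      rcases hall s' hsS with h | h
      · exact key Ca hCa dac (hvn Ca hCa) s' t u e1 hvt hvu h Cb (hdisj Ca Cb hCa dab hCb)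
          (hlink Cb hCb dbc hvs)
      · exact key Cb hCb dbc (hvn Cb hCb) s' t u e1 hvt hvu h Ca (hdisj Cb Ca hCb dab.symm hCa)
          (hlink Ca hCa dac hvs)
    · -- `v = t`
      have hvs : v ≠ s' := fun h => hst (h.symm.trans hvt)
      have hvu : v ≠ u := fun h => htu (hvt.symm.trans h)
      have hadj : Lk K ∅ u s' := Or.inl (hKs u huS hsu.symm hvu.symm hvs.symm)
      rcases hall t htS with h | h
      · exact key Ca hCa dac (hvn Ca hCa) t u s' e2 hvu hvs h ∅ (Set.empty_disjoint _) hadj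
      · exact key Cb hCb dbc (hvn Cb hCb) t u s' e2 hvu hvs h ∅ (Set.empty_disjoint _) hadj
    · -- `v = u`
      rw [Set.mem_singleton_iff] at hvu
      have hvs : v ≠ s' := fun h => hsu (h.symm.trans hvu)
      have hvt : v ≠ t := fun h => htu (h.symm.trans hvu)
      have hadj : Lk K ∅ t s' := Or.inl (hKs t htS hst.symm hvt.symm hvs.symm)
      rcases hall u huS with h | h
      · exact key Ca hCa dac (hvn Ca hCa) u t s' e3 hvt hvs h ∅ (Set.empty_disjoint _) hadj
      · exact key Cb hCb dbc (hvn Cb hCb) u t s' e3 hvt hvs h ∅ (Set.empty_disjoint _) hadj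
  · -- `v ∉ S`
    have hvs : v ≠ s' := fun h => hvS (h ▸ hsS)
    have hvt : v ≠ t := fun h => hvS (h ▸ htS)
    have hvu : v ≠ u := fun h => hvS (h ▸ huS)
    have hmain : ∀ C, Cmp G {s', t, u} C → Disjoint C Cc → v ∉ C →
        (∃ i ∈ ({s', t, u} : Set V), Stg G {s', t, u} C i) → False := by
      rintro C hC hCC hvC ⟨i, hi, hstg⟩
      rcases hi with rfl | rfl | hi
      · refine key C hC hCC hvC i t u e1 hvt hvu hstg {i} ?_ ?_
        · rw [Set.disjoint_left]
          rintro x hx (h | h | h)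
          · rw [Set.mem_singleton_iff] at hx
            exact nin C hC i hsS (hx ▸ h)
          · rw [Set.mem_singleton_iff] at hx
            exact hst (hx.symm.trans h)
          · rw [Set.mem_singleton_iff] at hx h
            exact hsu (hx.symm.trans h)
        · exact Or.inr ⟨{i}, le_rfl, Pool.Agent.Helper51.AJ.con_singleton K i,
            ⟨t, rfl, i, rfl, hKs t htS hst.symm hvt.symm hvs.symm⟩,
            ⟨u, rfl, i, rfl, hKs u huS hsu.symm hvu.symm hvs.symm⟩⟩
      · exact key C hC hCC hvC i u s' e2 hvu hvs hstg ∅ (Set.empty_disjoint _)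
          (Or.inl (hKs u huS hsu.symm hvu.symm hvs.symm))
      · rw [Set.mem_singleton_iff] at hi
        subst hi
        exact key C hC hCC hvC i t s' e3 hvt hvs hstg ∅ (Set.empty_disjoint _)
          (Or.inl (hKs t htS hst.symm hvt.symm hvs.symm))
    by_cases hva : v ∈ Ca
    · exact hmain Cb hCb dbc (fun h => Set.disjoint_left.1 dab hva h) hib
    · exact hmain Ca hCa dac hva hia

end Pool.Agent.Helper99.TS
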