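import Pool.Agent.Helper12.TS.St
import Pool.Agent.Helper41.AJ.M_CON

/-!
# Project TS, module TWO: 2-sums
-/

set_option autoImplicit false

namespace Pool.Agent.Helper99.TS

open Pool.Agent.Helper12.TS
open Pool.Agent.Helper51.AJ (IsMinor Planar Apex ExMinor Con Tch)
open Pool.Agent.Helper12.NK (rst Kc add)

theorem hTWO : StPTN → StRSM → StTWO := by
  intro hPTN hRSM V _ H p q 𝒞 _ hcl hcov hnp
  obtain ⟨-, -, -, -, -, h6, h7, h8, -, h10⟩ := hPTN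
  obtain ⟨ι, _, Γ, φ, -, hkc, hnpΓ, hmd⟩ := h8 V H hnp
  have hdis : ∀ w w', w ≠ w' → Disjoint (φ w) (φ w') := hmd.2.1
  have htch : ∀ w w', Γ.Adj w w' → Tch H (φ w) (φ w') := hmd.2.2
  have hsub : ∀ v : V, ({w | v ∈ φ w} : Set ι).ncard ≤ 1 := by
    intro v
    rw [Set.ncard_le_one]
    intro a ha b hb
    by_contra hab
    exact Set.disjoint_left.1 (hdis a b hab) ha hb
  have hWc : (({w | p ∈ φ w} ∪ {w | q ∈ φ w} : Set ι)).ncard < 3 := by
    have := Set.ncard_union_le {w | p ∈ φ w} {w | q ∈ φ w}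
    have h1 := hsub p
    have h2 := hsub q
    omega
  have hconW := hkc.2 _ hWc
  have hU := h7 ι V Γ H φ _ hmd hconW
  set K : Set ι := Set.univ \ ({w | p ∈ φ w} ∪ {w | q ∈ φ w}) with hK
  have hKmem : ∀ w, w ∈ K ↔ p ∉ φ w ∧ q ∉ φ w := by
    intro w
    simp [hK]
  set U : Set V := ⋃ k ∈ K, φ k with hUdef
  have hUmem : ∀ v, v ∈ U ↔ ∃ k ∈ K, v ∈ φ k := by
    intro v
    simp [hUdef]
  have hUpq : ∀ v ∈ U, v ≠ p ∧ v ≠ q := by
    intro v hv
    obtain ⟨k, hk, hvk⟩ := (hUmem v).1 hv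
    have hk' := (hKmem k).1 hk
    exact ⟨fun h => hk'.1 (h ▸ hvk), fun h => hk'.2 (h ▸ hvk)⟩
  obtain ⟨w, hw⟩ := Pool.Agent.Helper51.AJ.con_nonempty hconW
  obtain ⟨j, -, hj⟩ := h10 ι Γ hkc w ∅ (by simp)
  obtain ⟨x, hx, y, -, hxy⟩ := htch w j hj
  have hxU : x ∈ U := (hUmem x).2 ⟨w, hw, hx⟩
  obtain ⟨C, hC, hxC⟩ := hcov x y (hUpq x hxU).1 (hUpq x hxU).2 hxy
  obtain ⟨hpC, hqC, hcloC⟩ := hcl C hC
  have hUC : U ⊆ C := by
    by_contra hcon
    have hne : U ∩ C ≠ U := fun h => hcon (Set.inter_eq_left.1 h)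
    obtain ⟨a, ha, b, hb, hab⟩ := (Pool.Agent.Helper41.AJ.hCON V H U hU).1 (U ∩ C)
      Set.inter_subset_left ⟨x, hxU, hxC⟩ hne
    have hbpq := hUpq b hb.1
    exact hb.2 ⟨hb.1, hcloC a ha.2 b hbpq.1 hbpq.2 hab⟩
  refine ⟨C, hC, ?_⟩
  have hrs := hRSM V ι Γ H φ C {p, q} hmd
    (by
      rw [Set.disjoint_left]
      rintro a ha (rfl | rfl)
      · exact hpC ha
      · exact hqC ha)
    (by
      intro a ha b hb hab
      refine hcloC a ha b (fun h => hb (Or.inl h)) (fun h => hb (Or.inr h)) hab)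
    (by
      intro w
      by_cases hwK : w ∈ K
      · exact Or.inl (fun v hv => hUC ((hUmem v).2 ⟨w, hwK, hv⟩))
      · right
        rw [hKmem] at hwK
        by_cases hp : p ∈ φ w
        · exact ⟨p, hp, Or.inl rfl⟩
        · have hq : q ∈ φ w := by
            by_contra hq
            exact hwK ⟨hp, hq⟩
          exact ⟨q, hq, Or.inr rfl⟩)
  exact h6 ι V Γ _ _ hrs hnpΓ

end Pool.Agent.Helper99.TS
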